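import Pool.Agent.H61.KW.TB

/-!
# Kuiper board KW, row F5U
-/

open Topology Set
open Pool.Agent.H59 Pool.Agent.H64.LB Pool.Agent.H61.KU Pool.Agent.H61.KV Pool.Agent.H61.KW

namespace Pool.Agent.H24.KW.F5U

theorem pf_F5U (h : T_F5B) (h2 : T_TFT) (h3 : T_DSB) (h4 : T_X5L) : T_F5U := by
  intro V _ _ _ m K q g u hq hg hu huq h5
  have hC := K.cc
  have hgC : g ∈ Cn m := hg.mem
  have huC : u ∈ Cn m := hu.1
  have hfC : g + u ∈ Cn m := hC.add g hgC u huC
  have hqC : q ∈ Cn m := K.mem q hq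
  have hns : ¬ Fc (Cn m) (g + u) ⊆ Mh m := (h2 V m K q g u hq hg huq hu.2.1).2.1
  obtain ⟨a, z, y, ha3, hz, hy, hD, hzy, hf1, hf2, haz, hay⟩ := h V m K (g + u) hfC h5 hns
  have haC : a ∈ Cn m := hD.1
  have hzC : z ∈ Cn m := hz.1
  have hyC : y ∈ Cn m := hy.1
  have hzyC : z + y ∈ Cn m := hD.2.1
  have hSC : a + (z + y) ∈ Cn m := hC.add a haC _ hzyC
  have key : ∀ w, Ef m (a + w) → a + w ∈ Fc (Cn m) (g + u) → u ∈ Fc (Cn m) (a + w) := by
    intro w hw hwf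
    obtain ⟨x, hx, hx1, hx2⟩ := K.meet (a + w) q hw hq
    have hxf : x ∈ Fc (Cn m) (g + u) := tra hC hfC hwf hx1
    have hxu : x ∈ Fc (Cn m) u := foot_face hC hqC hgC huq hg.foot hx2 hxf
    exact tra hC (K.mem _ hw) hx1 (ex_symm hC hu hx hxu)
  have hazf : a + z ∈ Fc (Cn m) (g + u) := by
    refine tra hC hfC hf1 ?_
    have := left_fc hC (hC.add a haC z hzC) hyC
    rwa [add_assoc] at this
  have hayf : a + y ∈ Fc (Cn m) (g + u) := by
    refine tra hC hfC hf1 ?_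
    have := left_fc hC (hC.add a haC y hyC) hzC
    rwa [add_assoc, add_comm y z] at this
  have huz := key z haz hazf
  have huy := key y hay hayf
  have hud : u ∈ Fc (Cn m) (a + (z + y)) := tra hC hSC hf2 (right_fc hC hgC huC)
  obtain ⟨-, -, hD3, hD4, hD5, hD6⟩ := h3 V (Cn m) a (z + y) hC hD
  have hua : u ∈ Fc (Cn m) a := by
    rcases hD6 u hu hud with h | h
    · exact h
    · exfalso
      rcases (h3 V (Cn m) z y hC hzy).2.2.2.2.2 u hu h with h | h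
      · have hzu : z ∈ Fc (Cn m) u := ex_symm hC hz hu h
        have h1 : z ∈ Fc (Cn m) y := hD5 a (self hC haC) y (right_fc hC hzC hyC) z
          (left_fc hC hzC hyC) (tra hC (hC.add a haC y hyC) huy hzu)
        exact hz.2.1 (hzy.2.2.1 z (self_sp hC hzC) (mem_sp h1))
      · have hyu : y ∈ Fc (Cn m) u := ex_symm hC hy hu h
        have h1 : y ∈ Fc (Cn m) z := hD5 a (self hC haC) z (left_fc hC hzC hyC) y
          (right_fc hC hzC hyC) (tra hC (hC.add a haC z hzC) huz hyu)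
        exact hy.2.1 (hzy.2.2.1 y (mem_sp h1) (self_sp hC hyC))
  obtain ⟨β, hβg, hβa, haβ, hrk, hDβ, h6, h7, hzg, hyg⟩ :=
    h4 V (Cn m) a z y (g + u) g u hC hz hy hD hzy hfC hf1 hf2 hua (left_fc hC hgC huC)
      (self hC hfC)
  have hβC : β ∈ Cn m := mem_C hβa
  have hβua : β + u ∈ Fc (Cn m) a := add_fc hC haC hβa hua
  have hc1 : Fc (Cn m) (β + u + z) = Fc (Cn m) (a + z) :=
    fc_add_congr hC haC hzC hβua haβ (self hC hzC) (self hC hzC)
  have hc2 : Fc (Cn m) (β + u + y) = Fc (Cn m) (a + y) :=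
    fc_add_congr hC haC hyC hβua haβ (self hC hyC) (self hC hyC)
  have hazC : a + z ∈ Cn m := hC.add a haC z hzC
  have hayC : a + y ∈ Cn m := hC.add a haC y hyC
  have hβuzC : β + u + z ∈ Cn m := hC.add _ (hC.add β hβC u huC) z hzC
  have hβuyC : β + u + y ∈ Cn m := hC.add _ (hC.add β hβC u huC) y hyC
  refine ⟨β, z, y, hβg, hzg, hyg, hz, hy, hDβ, hzy, h6, h7, hrk, ?_, ?_, ?_, ?_⟩
  · rw [← ha3]
    exact rk_congr hC haC hβua haβ
  · exact hD3 (β + u) hβua (z + y) (self hC hzyC)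
  · exact K.congr (a + z) _ haz (hc1 ▸ self hC hβuzC) (hc1 ▸ self hC hazC)
  · exact K.congr (a + y) _ hay (hc2 ▸ self hC hβuyC) (hc2 ▸ self hC hayC)

end Pool.Agent.H24.KW.F5U
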