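import Pool.Agent.H61.KW.TB
import Pool.Agent.H24.LB.PNT

/-!
# Kuiper board KW, row HSU
-/

open Topology Set
open Pool.Agent.H59 Pool.Agent.H64.LB Pool.Agent.H61.KU Pool.Agent.H61.KV Pool.Agent.H61.KW

namespace Pool.Agent.H24.KW.HSU

theorem pf_HSU (hHSP : T_HSP) : T_HSU := by
  intro V _ _ _ m f Λ K hf hA
  have : CompactSpace (PN 2) := (Pool.Agent.H24.LB.pnt 2).1
  have hΛ : Continuous Λ := Λ.continuous_of_finiteDimensional
  have hcl : IsClosed {x : PN 2 | Λ (m x) = 0} :=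
    isClosed_eq (hΛ.comp K.cfg.cont) continuous_const
  have hcp : IsCompact (m '' {x : PN 2 | Λ (m x) = 0}) := hcl.isCompact.image K.cfg.cont
  have hmC : ∀ x, m x ∈ Cn m := fun x => K.mhC ⟨1, x, zero_le_one, (one_smul ℝ _).symm⟩
  obtain ⟨ξ, h1, h2⟩ := hHSP V (Cn m) f (m '' {x : PN 2 | Λ (m x) = 0}) K.cc hf hcp
    (by rintro _ ⟨x, _, rfl⟩; exact hmC x)
    (by rintro _ ⟨x, hx, rfl⟩ h; exact hA x h hx)
  refine ⟨ξ, h1, fun x hx h0 => ?_⟩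
  have := h2 (m x) ⟨x, h0, rfl⟩
  linarith

end Pool.Agent.H24.KW.HSU
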